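import Mathlib

set_option autoImplicit false

/-!
# Consequences of a supercompact cardinal
-/

namespace Pool.Agent.W873.Tp

open Cardinal Set Filter

/-- `U` is a `κ`-complete fine normal ultrafilter on `𝒫_κ(X)`. -/
structure NormalFine (κ : Cardinal.{0}) (X : Type) (U : Ultrafilter (Set X)) : Prop where
  small : ∀ᶠ x : Set X in (U : Filter (Set X)), #x < κ
  complete : ∀ (ι : Type) (A : ι → Set X → Prop), #ι < κ →
    (∀ i, ∀ᶠ x in (U : Filter (Set X)), A i x) → ∀ᶠ x in (U : Filter (Set X)), ∀ i, A i x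
  fine : ∀ a, ∀ᶠ x in (U : Filter (Set X)), a ∈ x
  normal : ∀ f : Set X → X, (∀ᶠ x in (U : Filter (Set X)), f x ∈ x) →
    ∃ a, ∀ᶠ x in (U : Filter (Set X)), f x = a

/-- `κ` is supercompact: `κ` is uncountable and for every set `X` there is a `κ`-complete fine
normal ultrafilter on `𝒫_κ(X)`. -/
def IsSupercompact (κ : Cardinal.{0}) : Prop :=
  ℵ₀ < κ ∧ ∀ X : Type, ∃ U : Ultrafilter (Set X), NormalFine κ X U

variable {κ : Cardinal.{0}} {X : Type} {U : Ultrafilter (Set X)}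

namespace NormalFine

/-- diagonal intersections -/
theorem diag (h : NormalFine κ X U) {Q : X → Set X → Prop}
    (hQ : ∀ a, ∀ᶠ x in (U : Filter (Set X)), Q a x) :
    ∀ᶠ x in (U : Filter (Set X)), ∀ a ∈ x, Q a x := by
  classical
  by_contra hc
  rw [← Ultrafilter.eventually_not] at hc
  have hc' : ∀ᶠ x in (U : Filter (Set X)), ∃ a ∈ x, ¬ Q a x := by
    refine hc.mono fun x hx => ?_
    by_contra h'
    push Not at h'
    exact hx h'
  obtain ⟨x0, a0, -, -⟩ := hc'.exists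
  obtain ⟨a, ha⟩ := h.normal (fun x => if h : ∃ a ∈ x, ¬ Q a x then h.choose else a0) (by
    refine hc'.mono fun x hx => ?_
    simp only [dif_pos hx]
    exact hx.choose_spec.1)
  obtain ⟨x, h1, h2, h3⟩ := (ha.and (hc'.and (hQ a))).exists
  simp only [dif_pos h2] at h1
  have := h2.choose_spec.2
  rw [h1] at this
  exact this h3

theorem closed (h : NormalFine κ X U) (G : X → X) :
    ∀ᶠ x in (U : Filter (Set X)), ∀ a ∈ x, G a ∈ x :=
  h.diag fun a => h.fine (G a)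

theorem closed₂ (h : NormalFine κ X U) (G : X → X → X) :
    ∀ᶠ x in (U : Filter (Set X)), ∀ a ∈ x, ∀ b ∈ x, G a b ∈ x :=
  h.diag fun a => h.closed (G a)

/-- a function with values in `x` is constant -/
theorem const (h : NormalFine κ X U) {Q : Set X → X → Prop}
    (hQ : ∀ᶠ x in (U : Filter (Set X)), ∃ a ∈ x, Q x a) :
    ∃ a, ∀ᶠ x in (U : Filter (Set X)), Q x a := by
  by_contra hc
  push Not at hc
  have : ∀ᶠ x in (U : Filter (Set X)), ∀ a ∈ x, ¬ Q x a := h.diag fun a => hc a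
  obtain ⟨x, ⟨a, h1, h2⟩, h3⟩ := (hQ.and this).exists
  exact h3 a h1 h2

theorem card_lt (h : NormalFine κ X U) {B C : Set X} (hBC : #B < #C) :
    ∀ᶠ x in (U : Filter (Set X)), #(x ∩ B : Set X) < #(x ∩ C : Set X) := by
  classical
  by_contra hc
  rw [← Ultrafilter.eventually_not] at hc
  have hc' : ∀ᶠ x in (U : Filter (Set X)), ∃ f : (x ∩ C : Set X) → (x ∩ B : Set X),
      Function.Injective f := by
    refine hc.mono fun x hx => ?_
    rw [not_lt, Cardinal.le_def] at hx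
    exact ⟨hx.some, hx.some.injective⟩
  let g : Set X → X → X := fun x a =>
    if h : (∃ f : (x ∩ C : Set X) → (x ∩ B : Set X), Function.Injective f) ∧ a ∈ x ∩ C then
      (h.1.choose ⟨a, h.2⟩ : X) else a
  have hg1 : ∀ᶠ x in (U : Filter (Set X)), ∀ a ∈ x ∩ C, g x a ∈ x ∩ B := by
    refine hc'.mono fun x hx a ha => ?_
    have := (hx.choose ⟨a, ha⟩).2
    simp only [g]
    rw [dif_pos ⟨hx, ha⟩]
    exact this
  have hg2 : ∀ᶠ x in (U : Filter (Set X)), ∀ a ∈ x ∩ C, ∀ b ∈ x ∩ C, g x a = g x b → a = b := by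
    refine hc'.mono fun x hx a ha b hb hab => ?_
    simp only [g] at hab
    rw [dif_pos ⟨hx, ha⟩, dif_pos ⟨hx, hb⟩] at hab
    have := hx.choose_spec (Subtype.ext hab)
    exact congrArg Subtype.val this
  have hG : ∀ a : C, ∃ b : B, ∀ᶠ x in (U : Filter (Set X)), g x a = b := by
    intro a
    obtain ⟨b, hb⟩ := h.const (Q := fun x b => g x a = b) (by
      filter_upwards [hg1, h.fine a] with x h1 h2
      exact ⟨g x a, (h1 a ⟨h2, a.2⟩).1, rfl⟩)
    obtain ⟨x, h1, h2, h3⟩ := (hg1.and ((h.fine a).and hb)).exists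
    refine ⟨⟨b, ?_⟩, hb⟩
    rw [← h3]
    exact (h1 a ⟨h2, a.2⟩).2
  choose G hG using hG
  refine absurd (mk_le_of_injective (f := G) ?_) (not_le.2 hBC)
  intro a b hab
  obtain ⟨x, h1, h2, h3, h4, h5⟩ :=
    (hg2.and ((h.fine a).and ((h.fine b).and ((hG a).and (hG b))))).exists
  refine Subtype.ext (h1 a ⟨h2, a.2⟩ b ⟨h3, b.2⟩ ?_)
  rw [h4, h5, hab]

end NormalFine

/-! ### Solovay's theorem -/

section solovay

variable {T : Type} [LinearOrder T] [WellFoundedLT T] {U : Ultrafilter (Set T)}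

/-- the least element of a set -/
theorem exists_least {S : Set T} (hS : S.Nonempty) : ∃ a ∈ S, ∀ b < a, b ∉ S := by
  obtain ⟨a, h1, h2⟩ := WellFounded.has_min (wellFounded_lt (α := T)) S hS
  exact ⟨a, h1, fun b hb hbS => h2 b hbS hb⟩

theorem exists_lub (S : Set T) (hS : ∃ b, ∀ a ∈ S, a < b) :
    ∃ b, (∀ a ∈ S, a < b) ∧ ∀ c < b, ∃ a ∈ S, c ≤ a := by
  obtain ⟨b, h1, h2⟩ := exists_least (S := {b | ∀ a ∈ S, a < b}) hS
  refine ⟨b, h1, fun c hc => ?_⟩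
  have := h2 c hc
  simp only [mem_ofPred_eq, not_forall, not_lt] at this
  obtain ⟨a, ha, h⟩ := this
  exact ⟨a, ha, h⟩

theorem solovay (hκ : ℵ₀ < κ) (h : NormalFine κ T U)
    (hb : ∀ S : Set T, #S < #T → ∃ b, ∀ a ∈ S, a < b) (hlt : ∀ a : T, #(Iio a) < #T)
    (hκT : κ ≤ #T) (h2 : (2 : Cardinal) ^ κ ≤ #T) : #(ℕ → T) ≤ #T := by
  classical
  -- the strict supremum
  have hsup : ∀ x : Set T, ∃ b, #x < κ → (∀ a ∈ x, a < b) ∧ ∀ c < b, ∃ a ∈ x, c ≤ a := by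
    intro x
    by_cases hx : #x < κ
    · obtain ⟨b, h1⟩ := exists_lub x (hb x (hx.trans_le hκT))
      exact ⟨b, fun _ => h1⟩
    · by_cases hT : Nonempty T
      · exact ⟨hT.some, fun h => absurd h hx⟩
      · have : IsEmpty T := not_nonempty_iff.1 hT
        have : #x = 0 := mk_eq_zero_iff.2 inferInstance
        exact absurd (this ▸ (aleph0_pos.trans hκ)) hx
  choose σ hσ using hsup
  have hcof : ∀ b : T, ∃ A : Set T, ((∃ A : Set T, #A < κ ∧ (∀ a ∈ A, a < b) ∧ ∀ c < b, ∃ a ∈ A, c ≤ a) →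
      (#A < κ ∧ (∀ a ∈ A, a < b) ∧ ∀ c < b, ∃ a ∈ A, c ≤ a)) := by
    intro b
    by_cases hA : ∃ A : Set T, #A < κ ∧ (∀ a ∈ A, a < b) ∧ ∀ c < b, ∃ a ∈ A, c ≤ a
    · obtain ⟨A, hA⟩ := hA
      exact ⟨A, fun _ => hA⟩
    · exact ⟨∅, fun h => absurd h hA⟩
  choose A hA using hcof
  have hA' : ∀ᶠ x in (U : Filter (Set T)), #(A (σ x)) < κ ∧ (∀ a ∈ A (σ x), a < σ x) ∧
      ∀ c < σ x, ∃ a ∈ A (σ x), c ≤ a := by
    filter_upwards [h.small] with x hx
    exact hA (σ x) ⟨x, hx, hσ x hx⟩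
  have hstep : ∀ η : T, ∃ η' : T, ∀ᶠ x in (U : Filter (Set T)), ∃ a ∈ A (σ x), η ≤ a ∧ a < η' := by
    intro η
    obtain ⟨e, he⟩ := h.const (Q := fun x e => ∃ a ∈ A (σ x), η ≤ a ∧ a ≤ e) (by
      filter_upwards [hA', h.small, h.fine η] with x h1 h3 h4
      obtain ⟨a, ha, hηa⟩ := h1.2.2 η ((hσ x h3).1 η h4)
      obtain ⟨e, he, hae⟩ := (hσ x h3).2 a (h1.2.1 a ha)
      exact ⟨e, he, a, ha, hηa, hae⟩)
    obtain ⟨η', hη'⟩ := hb {e} (by
      rw [mk_singleton]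
      exact (one_lt_aleph0.trans hκ).trans_le hκT)
    refine ⟨η', he.mono fun x hx => ?_⟩
    obtain ⟨a, h1, h3, h4⟩ := hx
    exact ⟨a, h1, h3, h4.trans_lt (hη' e rfl)⟩
  choose st hst using hstep
  -- the sequence of the intervals
  have hE : ∃ E : T → T, ∀ ξ, ∀ ζ < ξ, st (E ζ) ≤ E ξ := by
    have hbd : ∀ (ξ : T) (f : (ζ : T) → ζ < ξ → T), ∃ b, ∀ ζ (hζ : ζ < ξ), st (f ζ hζ) ≤ b := by
      intro ξ f
      obtain ⟨b, h1⟩ := hb (range fun ζ : Iio ξ => st (f ζ.1 ζ.2))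
        (mk_range_le.trans_lt (hlt ξ))
      exact ⟨b, fun ζ hζ => (h1 _ ⟨⟨ζ, hζ⟩, rfl⟩).le⟩
    refine ⟨WellFounded.fix (wellFounded_lt (α := T)) fun ξ f => (hbd ξ f).choose, ?_⟩
    intro ξ ζ hζ
    rw [WellFounded.fix_eq (wellFounded_lt (α := T)) _ ξ]
    exact (hbd ξ fun ζ _ => WellFounded.fix (wellFounded_lt (α := T))
      (fun ξ f => (hbd ξ f).choose) ζ).choose_spec ζ hζ
  obtain ⟨E, hE⟩ := hE
  let M : T → Set T := fun b => {ξ | ∃ a ∈ A b, E ξ ≤ a ∧ a < st (E ξ)}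
  have hM : ∀ b, #(M b) ≤ #(A b) := by
    intro b
    have : ∀ ξ : M b, ∃ a : A b, E ξ ≤ a ∧ a < st (E ξ) := by
      rintro ⟨ξ, a, ha, h3⟩
      exact ⟨⟨a, ha⟩, h3⟩
    choose f hf using this
    refine mk_le_of_injective (f := f) fun ξ ζ hξζ => ?_
    rcases lt_trichotomy ξ.1 ζ.1 with hlt | heq | hgt
    · have h3 := hE ζ ξ hlt
      have h4 := (hf ξ).2.trans_le (h3.trans (hf ζ).1)
      rw [hξζ] at h4
      exact absurd h4 (lt_irrefl _)
    · exact Subtype.ext heq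
    · have h3 := hE ξ ζ hgt
      have h4 := (hf ζ).2.trans_le (h3.trans (hf ξ).1)
      rw [hξζ] at h4
      exact absurd h4 (lt_irrefl _)
  have hcover : ∀ y : ℕ → T, ∃ b : T, #(M b) ≤ κ ∧ ∀ n, y n ∈ M b := by
    intro y
    have h3 := h.complete ℕ (fun n x => y n ∈ M (σ x)) (by simpa using hκ) (fun n => by
      filter_upwards [hst (E (y n))] with x hx
      exact hx)
    obtain ⟨x, h4, h5⟩ := (h3.and hA').exists
    exact ⟨σ x, (hM _).trans h5.1.le, h4⟩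
  choose B hB1 hB2 using hcover
  have hle : #(ℕ → T) ≤ #((b : {b : T // #(M b) ≤ κ}) × (ℕ → M b.1)) := by
    refine mk_le_of_injective (f := fun y => ⟨⟨B y, hB1 y⟩, fun n => ⟨y n, hB2 y n⟩⟩) ?_
    intro y z hyz
    simp only [Sigma.mk.injEq, Subtype.mk.injEq] at hyz
    obtain ⟨h3, h4⟩ := hyz
    funext n
    have h5 : ∀ (b b' : {b : T // #(M b) ≤ κ}) (hbb : b = b') (f : ℕ → M b.1) (g : ℕ → M b'.1),
        HEq f g → ∀ n, (f n : T) = g n := by
      rintro b _ rfl f g hfg n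
      rw [eq_of_heq hfg]
    exact h5 ⟨B y, hB1 y⟩ ⟨B z, hB1 z⟩ (Subtype.ext h3) (fun n => ⟨y n, hB2 y n⟩)
      (fun n => ⟨z n, hB2 z n⟩) h4 n
  have h3 : ∀ b : {b : T // #(M b) ≤ κ}, #(ℕ → M b.1) ≤ #T := by
    intro b
    have h4 : #(ℕ → M b.1) ≤ #(ℕ → κ.out) := by
      obtain ⟨f⟩ : #(M b.1) ≤ #κ.out := by
        rw [mk_out]
        exact b.2
      exact mk_le_of_injective (f := fun y n => f (y n)) fun y z hyz => by
        funext n
        exact f.injective (congrFun hyz n)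
    refine h4.trans (le_trans ?_ h2)
    rw [mk_arrow, mk_out, lift_id, lift_uzero, mk_nat]
    calc κ ^ ℵ₀ ≤ κ ^ κ := power_le_power_left (aleph0_pos.trans hκ).ne' hκ.le
      _ = 2 ^ κ := power_self_eq hκ.le
  refine hle.trans ?_
  rw [mk_sigma]
  refine (sum_le_sum _ (fun _ => #T) h3).trans ?_
  rw [sum_const, lift_id, lift_id]
  have h4 : #{b : T // #(M b) ≤ κ} ≤ #T := mk_subtype_le _
  calc #{b : T // #(M b) ≤ κ} * #T ≤ #T * #T := mul_le_mul_left h4 _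
    _ = #T := mul_eq_self (hκ.le.trans hκT)

end solovay

end Pool.Agent.W873.Tp
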