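import Mathlib
import Pool.Agent.W873.Tp.Large

set_option autoImplicit false

/-!
# A consequence of a supercompact cardinal about sequences below a singular cardinal
-/

namespace Pool.Agent.W873.Tp

open Cardinal Set Filter

/-- For every map `c` from the sequences in `A` to `μ⁺` there are more than `μ` sequences, whose
ranges are contained in a set of size `μ`, such that `c` is bounded on them. -/
def HH (μ : Cardinal.{0}) (A : Type) : Prop :=
  ∀ c : (ℕ → A) → (Order.succ μ).ord.ToType, ∃ Y : Set (ℕ → A), μ < #Y ∧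
    (∃ δ, ∀ y ∈ Y, c y ≤ δ) ∧ #(⋃ y ∈ Y, range y : Set A) ≤ μ

/-- the beth numbers above `κ` -/
noncomputable def nu (κ : Cardinal.{0}) : ℕ → Cardinal.{0}
  | 0 => κ
  | n + 1 => 2 ^ nu κ n

theorem nu_lt (κ : Cardinal.{0}) (n : ℕ) : nu κ n < nu κ (n + 1) := cantor _

theorem nu_lt_sum (κ : Cardinal.{0}) (n : ℕ) : nu κ n < sum (nu κ) :=
  (nu_lt κ n).trans_le (le_sum _ _)

theorem sum_lt_pow (κ : Cardinal.{0}) : sum (nu κ) < sum (nu κ) ^ ℵ₀ := by
  have h : sum (nu κ) < prod fun n => nu κ (n + 1) := sum_lt_prod _ _ (nu_lt κ)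
  refine h.trans_le ((prod_le_prod _ (fun _ => sum (nu κ)) fun n => (nu_lt_sum κ _).le).trans ?_)
  rw [prod_const, lift_id, lift_id, mk_nat]

theorem pow_sum_le (κ : Cardinal.{0}) : (2 : Cardinal) ^ sum (nu κ) ≤ sum (nu κ) ^ ℵ₀ := by
  rw [power_sum]
  refine (prod_le_prod _ (fun _ => sum (nu κ)) fun n => (nu_lt_sum κ (n + 1)).le).trans ?_
  rw [prod_const, lift_id, lift_id, mk_nat]

theorem exists_mk_Iio {κ μ : Cardinal.{0}} (h : μ < κ) : ∃ k : κ.ord.ToType, #(Iio k) = μ := by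
  have h1 : μ.ord < Ordinal.type ((· < ·) : κ.ord.ToType → κ.ord.ToType → Prop) := by
    rw [Ordinal.type_toType]
    exact ord_lt_ord.2 h
  refine ⟨Ordinal.enum (· < ·) ⟨μ.ord, h1⟩, ?_⟩
  have h2 := Ordinal.typein_enum (· < ·) h1
  have h3 := congrArg Ordinal.card h2
  rw [card_ord] at h3
  exact Eq.trans rfl h3

theorem bdd_of_lt {κ : Cardinal.{0}} (hκ : κ.IsRegular) (S : Set κ.ord.ToType) (hS : #S < κ) :
    ∃ b, ∀ a ∈ S, a < b := by
  by_contra hcon
  push Not at hcon
  have h1 : IsCofinal S := fun β => by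
    obtain ⟨x, hx, h⟩ := hcon β
    exact ⟨x, hx, h⟩
  have h2 := Order.cof_le h1
  rw [Ordinal.cof_toType, hκ.cof_ord] at h2
  exact absurd h2 (not_le.2 hS)

theorem mk_Iio_lt' {κ : Cardinal.{0}} (x : κ.ord.ToType) : #(Iio x) < κ := by
  have h := mk_Iio_lt x (by simp)
  rwa [mk_ord_toType] at h

/-- a well ordered set with small initial segments -/
theorem mk_le_succ {T : Type} [LinearOrder T] [WellFoundedLT T] {μ : Cardinal.{0}} (x : Set T)
    (h : ∀ t ∈ x, #{a : T | a ∈ x ∧ a < t} ≤ μ) : #x ≤ Order.succ μ := by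
  by_contra hcon
  rw [not_le] at hcon
  have h1 : (Order.succ μ).ord < Ordinal.type ((· < ·) : x → x → Prop) := by
    rw [← not_le]
    intro h2
    have h3 := Ordinal.card_le_card h2
    rw [card_ord, Ordinal.card_type] at h3
    exact absurd hcon (not_lt.2 h3)
  have h2 := Ordinal.typein_enum (· < ·) h1
  have h3 := congrArg Ordinal.card h2
  rw [card_ord] at h3
  set k : x := Ordinal.enum (· < ·) ⟨(Order.succ μ).ord, h1⟩ with hk
  have h4 : #{a : x | a < k} = Order.succ μ := Eq.trans rfl h3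
  have h5 : #{a : x | a < k} ≤ #{a : T | a ∈ x ∧ a < k.1} :=
    mk_le_of_injective (f := fun a => ⟨a.1.1, a.1.2, a.2⟩) fun a b hab => by
      simp only [Subtype.mk.injEq] at hab
      exact Subtype.ext (Subtype.ext hab)
  have h6 := h5.trans (h k.1 k.2)
  rw [h4] at h6
  exact absurd (Order.lt_succ μ) (not_lt.2 h6)

/-- every subset of `x ∩ B` is the trace of a member of `x` -/
theorem trace {κ : Cardinal.{0}} {T : Type} {U : Ultrafilter (Set T)} (h : NormalFine κ T U)
    (B : Set T) (S : T → Set T) (hS : ∀ D ⊆ B, ∃ t, S t = D) :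
    ∀ᶠ x in (U : Filter (Set T)), ∀ D ⊆ x ∩ B, ∃ t ∈ x, S t ∩ x = D := by
  classical
  by_contra hc
  rw [← Ultrafilter.eventually_not] at hc
  have hc' : ∀ᶠ x in (U : Filter (Set T)), ∃ D, D ⊆ x ∩ B ∧ ∀ t ∈ x, S t ∩ x ≠ D := by
    refine hc.mono fun x hx => ?_
    push Not at hx
    exact hx
  let D : Set T → Set T := fun x => if h : ∃ D, D ⊆ x ∩ B ∧ ∀ t ∈ x, S t ∩ x ≠ D then h.choose
    else ∅
  have hD : ∀ᶠ x in (U : Filter (Set T)), D x ⊆ x ∩ B ∧ ∀ t ∈ x, S t ∩ x ≠ D x := by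
    refine hc'.mono fun x hx => ?_
    simp only [D]
    rw [dif_pos hx]
    exact hx.choose_spec
  obtain ⟨t, ht⟩ := hS {a | a ∈ B ∧ ∀ᶠ x in (U : Filter (Set T)), a ∈ D x} fun a ha => ha.1
  have h1 : ∀ᶠ x in (U : Filter (Set T)), ∀ a ∈ x, a ∈ S t ↔ a ∈ D x := by
    refine h.diag fun a => ?_
    by_cases ha : ∀ᶠ x in (U : Filter (Set T)), a ∈ D x
    · filter_upwards [ha, hD] with x h1 h2
      refine ⟨fun _ => h1, fun _ => ?_⟩
      rw [ht]
      exact ⟨(h2.1 h1).2, ha⟩
    · have ha' := Ultrafilter.eventually_not.2 ha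
      filter_upwards [ha'] with x h1
      refine ⟨fun h2 => ?_, fun h2 => absurd h2 h1⟩
      rw [ht] at h2
      exact absurd h2.2 ha
  obtain ⟨x, h2, h3, h4⟩ := (h1.and ((h.fine t).and hD)).exists
  refine h4.2 t h3 ?_
  ext a
  constructor
  · rintro ⟨h5, h6⟩
    exact (h2 a h6).1 h5
  · intro h5
    have h6 := (h4.1 h5).1
    exact ⟨(h2 a h6).2 h5, h6⟩

theorem exists_HH {κ : Cardinal.{0}} (hκ : IsSupercompact κ) : ∃ (μ : Cardinal.{0}) (A : Type),
    ℵ₀ ≤ μ ∧ (2 : Cardinal) ^ μ ≤ Order.succ μ ∧ Infinite A ∧ HH μ A := by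
  classical
  obtain ⟨h0, hsc⟩ := hκ
  set ν := sum (nu κ) with hν
  have hκν : κ < ν := nu_lt_sum κ 0
  have h2κ : (2 : Cardinal) ^ κ < ν := nu_lt_sum κ 1
  have hν0 : ℵ₀ ≤ ν := h0.le.trans hκν.le
  let T := (Order.succ ν).ord.ToType
  have hT : #T = Order.succ ν := mk_ord_toType _
  obtain ⟨U, hU⟩ := hsc T
  have hreg : (Order.succ ν).IsRegular := isRegular_succ hν0
  have hsol : #(ℕ → T) ≤ #T := by
    refine solovay h0 hU (fun S hS => bdd_of_lt hreg S (by rwa [hT] at hS))
      (fun a => ?_) ?_ ?_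
    · rw [hT]
      exact mk_Iio_lt' a
    · rw [hT]
      exact hκν.le.trans (Order.le_succ ν)
    · rw [hT]
      exact h2κ.le.trans (Order.le_succ ν)
  have hpow : (2 : Cardinal) ^ ν ≤ #T := by
    refine (pow_sum_le κ).trans (le_trans ?_ hsol)
    rw [mk_arrow, lift_id, lift_uzero, mk_nat, hT]
    exact power_le_power_right (Order.le_succ ν)
  obtain ⟨B, hB⟩ := le_mk_iff_exists_set.1 (hT.symm ▸ Order.le_succ ν : ν ≤ #T)
  -- the functions
  have hF : #T ≤ #(ℕ → B) := by
    rw [mk_arrow, lift_id, lift_uzero, mk_nat, hB, hT]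
    exact Order.succ_le_of_lt (sum_lt_pow κ)
  obtain ⟨F⟩ := hF
  obtain ⟨b⟩ : #ℕ ≤ #B := by
    rw [mk_nat, hB]
    exact hν0
  have hS : ∃ S : T → Set T, ∀ D ⊆ B, ∃ t, S t = D := by
    have h1 : #(Set B) ≤ #T := by
      rw [mk_set, hB]
      exact hpow
    have hne : Nonempty (Set B) := ⟨∅⟩
    obtain ⟨f⟩ := h1
    have h2 := Function.leftInverse_invFun f.injective
    refine ⟨fun t => Subtype.val '' (Function.invFun f t : Set B), fun D hD =>
      ⟨f {a : B | a.1 ∈ D}, ?_⟩⟩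
    change Subtype.val '' (Function.invFun f (f {a : B | a.1 ∈ D}) : Set B) = D
    rw [h2]
    ext a
    constructor
    · rintro ⟨a, ha, rfl⟩
      exact ha
    · intro ha
      exact ⟨⟨a, hD ha⟩, ha, rfl⟩
  obtain ⟨S, hS⟩ := hS
  have he : ∀ t : T, Nonempty (Iio t ↪ B) := by
    intro t
    have h1 : #(Iio t) ≤ #B := by
      rw [hB]
      exact Order.lt_succ_iff.1 (mk_Iio_lt' t)
    exact h1
  let K := κ.ord.ToType
  let m : K → Cardinal.{0} := fun k => #(Iio k)
  have hm : ∀ k, m k < κ := fun k => mk_Iio_lt' k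
  let Wk : K → Type := fun k => (Order.succ (m k)).ord.ToType
  have hWk : ∀ k, #(Wk k) = Order.succ (m k) := fun k => mk_ord_toType _
  have hWne : ∀ k, Nonempty (Wk k) := fun k => by
    rw [← mk_ne_zero_iff, hWk]
    exact (Order.bot_lt_succ (m k)).ne'
  have hc : ∀ k, ∃ c : (ℕ → B) → Wk k, ¬ HH (m k) B → ∀ Y : Set (ℕ → B), m k < #Y →
      (∃ δ, ∀ y ∈ Y, c y ≤ δ) → ¬ #(⋃ y ∈ Y, range y : Set B) ≤ m k := by
    intro k
    by_cases h1 : HH (m k) B
    · exact ⟨fun _ => (hWne k).some, fun h => absurd h1 h⟩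
    · have h2 := h1
      unfold HH at h2
      push Not at h2
      obtain ⟨c, hc⟩ := h2
      refine ⟨c, fun _ Y h3 h4 => ?_⟩
      rw [not_le]
      exact hc Y h3 h4
  choose c hc using hc
  have hPi : #(∀ k, Wk k) < ν := by
    refine lt_of_le_of_lt ?_ h2κ
    rw [mk_pi]
    refine (prod_le_prod _ (fun _ => κ) fun k => ?_).trans ?_
    · rw [hWk]
      exact Order.succ_le_of_lt (hm k)
    · rw [prod_const, lift_id, lift_id, mk_ord_toType, power_self_eq h0.le]
  obtain ⟨ι⟩ : #(∀ k, Wk k) ≤ #T := (hPi.le.trans (Order.le_succ ν)).trans hT.symm.le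
  have hR : #(range ι) < #B := by
    rw [mk_range_eq _ ι.injective, hB]
    exact hPi
  have hBT : #B < #(univ : Set T) := by
    rw [mk_univ, hT, hB]
    exact Order.lt_succ ν
  let e : T → T → T := fun t a => if h : a < t then ((he t).some ⟨a, h⟩ : T) else a
  have E8 : ∀ᶠ x in (U : Filter (Set T)), ∀ a ∈ x, ∀ n, (F a n : T) ∈ x :=
    hU.diag fun a => hU.complete ℕ (fun n x => (F a n : T) ∈ x) (by simpa using h0)
      fun n => hU.fine _
  have E7 := hU.complete ℕ (fun n x => (b n : T) ∈ x) (by simpa using h0) fun n => hU.fine _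
  obtain ⟨x, e1, e2, e3, e4, e5, e6, e7, e8⟩ := (hU.small.and ((hU.card_lt hBT).and
    ((hU.closed₂ e).and ((trace hU B S hS).and ((hU.closed fun t => ι fun k => c k (F t)).and
    ((hU.card_lt hR).and (E7.and E8))))))).exists
  rw [inter_univ] at e2
  refine ⟨#(x ∩ B : Set T), B, ?_, ?_, ?_, ?_⟩
  · rw [← mk_nat]
    refine mk_le_of_injective (f := fun n => ⟨b n, e7 n, (b n).2⟩) fun n n' h => ?_
    have h' : (b n : T) = b n' := congrArg (fun z : (x ∩ B : Set T) => (z : T)) h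
    exact b.injective (Subtype.ext h')
  · refine le_trans ?_ (mk_le_succ (μ := #(x ∩ B : Set T)) x fun t ht => ?_)
    · rw [← mk_set]
      have h1 : ∀ D : Set (x ∩ B : Set T), ∃ t : x, S t ∩ x = Subtype.val '' D := by
        intro D
        obtain ⟨t, ht, h⟩ := e4 (Subtype.val '' D) (by
          rintro _ ⟨a, _, rfl⟩
          exact a.2)
        exact ⟨⟨t, ht⟩, h⟩
      choose f hf using h1
      refine mk_le_of_injective (f := f) fun D D' h => ?_
      have h2 := hf D
      rw [h, hf D'] at h2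
      exact (image_injective.2 Subtype.val_injective h2).symm
    · refine mk_le_of_injective (f := fun a => ⟨e t a, e3 t ht a a.2.1, ?_⟩) fun a a' h => ?_
      · simp only [e]
        rw [dif_pos a.2.2]
        exact ((he t).some ⟨a, a.2.2⟩).2
      · have h' : e t a = e t a' := congrArg Subtype.val h
        simp only [e] at h'
        rw [dif_pos a.2.2, dif_pos a'.2.2] at h'
        have h1 := (he t).some.injective (Subtype.ext h')
        exact Subtype.ext (congrArg (fun z : Iio t => (z : T)) h1)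
  · rw [← aleph0_le_mk_iff, hB]
    exact hν0
  · have hxB : #(x ∩ B : Set T) < κ := (mk_le_mk_of_subset inter_subset_left).trans_lt e1
    obtain ⟨k, hk⟩ := exists_mk_Iio hxB
    by_contra hcon
    rw [← hk] at hcon
    refine hc k hcon (F '' x) ?_ ?_ ?_
    · rw [mk_image_eq F.injective]
      change #(Iio k) < _
      rw [hk]
      exact e2
    · have h1 : #((fun t => c k (F t)) '' x) < #(x ∩ B : Set T) := by
        refine lt_of_le_of_lt ?_ e6
        have h2 : ∀ w : (fun t => c k (F t)) '' x, ∃ t ∈ x, c k (F t) = w := fun w => w.2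
        choose g hg1 hg2 using h2
        refine mk_le_of_injective (f := fun w => ⟨ι fun k => c k (F (g w)), e5 _ (hg1 w),
          ⟨_, rfl⟩⟩) fun w w' h => ?_
        have h' : ι (fun k => c k (F (g w))) = ι fun k => c k (F (g w')) :=
          congrArg Subtype.val h
        have h3 := congrFun (ι.injective h') k
        rw [hg2, hg2] at h3
        exact Subtype.ext h3
      have h4 : ℵ₀ ≤ m k := by
        change ℵ₀ ≤ #(Iio k)
        rw [hk, ← mk_nat]
        refine mk_le_of_injective (f := fun n => ⟨b n, e7 n, (b n).2⟩) fun n n' h => ?_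
        have h' : (b n : T) = b n' := congrArg (fun z : (x ∩ B : Set T) => (z : T)) h
        exact b.injective (Subtype.ext h')
      obtain ⟨δ, hδ⟩ := bdd_of_lt (isRegular_succ h4) ((fun t => c k (F t)) '' x) (by
        refine h1.trans (lt_of_le_of_lt ?_ (Order.lt_succ (m k)))
        exact hk.symm.le)
      refine ⟨δ, ?_⟩
      rintro _ ⟨t, ht, rfl⟩
      exact (hδ _ ⟨t, ht, rfl⟩).le
    · change _ ≤ #(Iio k)
      rw [hk]
      refine mk_le_of_injective (f := fun a => ⟨a.1.1, ?_, a.1.2⟩) fun a a' h => ?_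
      · obtain ⟨a, ha⟩ := a
        simp only [mem_iUnion, mem_image, exists_prop, mem_range] at ha
        obtain ⟨_, ⟨t, ht, rfl⟩, n, rfl⟩ := ha
        exact e8 t ht n
      · have h' : (a.1.1 : T) = a'.1.1 := congrArg (fun z : (x ∩ B : Set T) => (z : T)) h
        exact Subtype.ext (Subtype.ext h')

end Pool.Agent.W873.Tp
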