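import Mathlib
import Pool.Agent.Helper669.Forcing

set_option autoImplicit false

/-!
# The combinatorial principle, in the ground model and in the extension

The forcing relation is the one of `Pool.Agent.Helper669.Forcing`: a sentence is the set of the
conditions which force it.
-/

namespace Pool.Agent.W873.Tp

open Cardinal Pool.Agent.Helper669.Forcing

/-- `ω₁` -/
abbrev W1 : Type := (ℵ₁ : Cardinal.{0}).ord.ToType

/-- The principle `Φ(I)`: for every map `c` from the set of the sequences `ω → I` to `ω₁` there is
`δ < ω₁` such that the set of the `{k : x k = y k}`, where `c x ≤ δ` and `c y ≤ δ`, is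
uncountable. -/
def Phi (I : Type) : Prop :=
  ∀ c : (ℕ → I) → W1, ∃ δ : W1,
    ¬ {s : Set ℕ | ∃ x y, c x ≤ δ ∧ c y ≤ δ ∧ s = {k | x k = y k}}.Countable

section forcing

variable (P : Type) [Preorder P] (W : Type) [LinearOrder W] (I : Type)

/-- In the extension, the ground model well-order `W` is uncountable and all its proper initial
segments are countable; so `W` is `ω₁`. -/
def OmegaOneIs : Set P :=
  fand (fnot (fex fun R : ℕ → W → Set P => fand (IsFun R) (IsOnto R)))
    (fall fun i : W => fex fun R : {j : W // j < i} → ℕ → Set P => fand (IsFun R) (IsInj R))

/-- In the extension, there is an enumeration by `W` of all subsets of `ω`. -/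
def EnumReals : Set P :=
  fex fun E : W → ℕ → Set P => fall fun x : ℕ → Set P => fex fun i : W => fall fun n : ℕ =>
    fand (fimp (meets (x n)) (meets (E i n))) (fimp (meets (E i n)) (meets (x n)))

variable {P} in
/-- The named functions `x` and `y` from `ω` to `I` have the same value at `k`. -/
def EqualAt {I : Type} (x y : ℕ → I → Set P) (k : ℕ) : Set P :=
  fex fun a : I => fand (meets (x k a)) (meets (y k a))

/-- The principle `Φ(I)` in the extension, where `W` is `ω₁`. The elements `x` of
`ℕ → I → Set P` are the names for relations between `ω` and `I`, and the names for functions from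
`ω` to `I` are those with `IsFun x`. The map `c` is given by a map `C` on the names, in the
extension, and `E` is a sequence of subsets of `ω` in the extension. -/
def ForcedPhi : Set P :=
  fall fun C : (ℕ → I → Set P) → W → Set P => fimp (IsFun C)
    (fex fun δ : W => fnot (fex fun E : ℕ → ℕ → Set P =>
      fall fun x : ℕ → I → Set P => fall fun y : ℕ → I → Set P => fall fun i : W =>
        fall fun j : W => fall fun _ : i ≤ δ => fall fun _ : j ≤ δ =>
          fimp (fand (fand (IsFun x) (IsFun y)) (fand (meets (C x i)) (meets (C y j))))
            (fex fun n : ℕ => fall fun k : ℕ =>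
              fand (fimp (meets (E n k)) (EqualAt x y k)) (fimp (EqualAt x y k) (meets (E n k))))))

end forcing

end Pool.Agent.W873.Tp
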