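import Mathlib
import Pool.Agent.W873.Tp.Defs
import Pool.Agent.W873.Tp.Large2

set_option autoImplicit false

/-!
# Collapsing `μ` to `ω`
-/

namespace Pool.Agent.W873.Tp

open Cardinal Set Pool.Agent.Helper669.Forcing

/-- the collapse of `M` to `ω`: finite sequences of elements of `M` -/
def Col (M : Type) : Type := List M

namespace Col

variable {M : Type}

instance : Preorder (Col M) where
  le q p := List.IsPrefix (α := M) p q
  le_refl p := List.prefix_rfl
  le_trans r q p h1 h2 := List.IsPrefix.trans h2 h1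

instance : Nonempty (Col M) := ⟨([] : List M)⟩

/-- the length -/
def len (p : Col M) : ℕ := List.length (α := M) p

/-- the value at `n` -/
def val (p : Col M) (n : ℕ) : Option M := (show List M from p)[n]?

theorem le_def {p q : Col M} : q ≤ p ↔ List.IsPrefix (α := M) p q := Iff.rfl

theorem val_eq_some_of_le {p q : Col M} (h : q ≤ p) {n : ℕ} {a : M} (hp : p.val n = some a) :
    q.val n = some a := by
  obtain ⟨t, ht⟩ := h
  have h1 : n < List.length (α := M) p := (List.getElem?_eq_some_iff.1 hp).1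
  change (show List M from q)[n]? = some a
  change (show List M from p)[n]? = some a at hp
  have h2 : (show List M from q) = (show List M from p) ++ t := ht.symm
  rw [h2, List.getElem?_append_left h1, hp]

theorem lt_len_iff {p : Col M} {n : ℕ} : n < p.len ↔ ∃ a, p.val n = some a := by
  constructor
  · intro h
    exact ⟨_, List.getElem?_eq_getElem h⟩
  · rintro ⟨a, ha⟩
    exact (List.getElem?_eq_some_iff.1 ha).1

theorem len_le {p q : Col M} (h : q ≤ p) : p.len ≤ q.len := List.IsPrefix.length_le h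

/-- adding a value -/
def add (p : Col M) (a : M) : Col M := (show List M from p) ++ [a]

theorem add_le (p : Col M) (a : M) : p.add a ≤ p := List.prefix_append _ _

theorem len_add_aux (p : List M) (a : M) : (p ++ [a]).length = p.length + 1 := by simp

theorem val_add_aux (p : List M) (a : M) : (p ++ [a])[p.length]? = some a := by simp

theorem len_add (p : Col M) (a : M) : (p.add a).len = p.len + 1 := len_add_aux p a

theorem val_add (p : Col M) (a : M) : (p.add a).val p.len = some a := val_add_aux p a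

/-- conditions of length at least `n` -/
theorem exists_len [Nonempty M] (p : Col M) (n : ℕ) (hn : p.len ≤ n) :
    ∃ q ≤ p, q.len = n := by
  induction n, hn using Nat.le_induction with
  | base => exact ⟨p, le_rfl, rfl⟩
  | succ n hn ih =>
    obtain ⟨q, hq, h⟩ := ih
    exact ⟨q.add (Classical.arbitrary M), (add_le _ _).trans hq, by rw [len_add, h]⟩

theorem exists_val [Nonempty M] (p : Col M) (n : ℕ) : ∃ q ≤ p, ∃ a, q.val n = some a := by
  obtain ⟨q, hq, h⟩ := exists_len p (max p.len (n + 1)) (le_max_left _ _)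
  exact ⟨q, hq, lt_len_iff.1 (by rw [h]; exact lt_of_lt_of_le (Nat.lt_succ_self n) (le_max_right _ _))⟩

theorem mk_prod_nat {μ : Cardinal.{0}} (hμ : ℵ₀ ≤ μ) (hM : #M = μ) : #(Col M × ℕ) = μ := by
  have : Infinite M := by
    rw [← aleph0_le_mk_iff, hM]
    exact hμ
  have h1 : #(Col M) = μ := by
    change #(List M) = μ
    rw [mk_list_eq_mk, hM]
  rw [mk_prod, lift_id, lift_id, h1, mk_nat, mul_aleph0_eq hμ]

/-- the set of the decided values is bounded -/
theorem bdd_values {μ : Cardinal.{0}} (hμ : ℵ₀ ≤ μ) (hM : #M = μ)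
    (Q : Col M × ℕ → (Order.succ μ).ord.ToType → Prop)
    (hQ : ∀ a i j, Q a i → Q a j → i = j) : ∃ b, ∀ a i, Q a i → i < b := by
  classical
  have hne : Nonempty (Order.succ μ).ord.ToType := by
    rw [← mk_ne_zero_iff, mk_ord_toType]
    exact (Order.bot_lt_succ μ).ne'
  obtain ⟨b, hb⟩ := bdd_of_lt (isRegular_succ hμ) {i | ∃ a, Q a i} (by
    refine lt_of_le_of_lt (le_trans ?_ (mk_prod_nat hμ hM).le) (Order.lt_succ μ)
    have h : ∀ i : {i | ∃ a, Q a i}, ∃ a, Q a i := fun i => i.2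
    choose f hf using h
    refine mk_le_of_injective (f := f) fun i j hij => ?_
    have h1 := hf i
    rw [hij] at h1
    exact Subtype.ext (hQ _ _ _ h1 (hf j)))
  exact ⟨b, fun a i h => hb i ⟨a, h⟩⟩

variable {μ : Cardinal.{0}}

theorem omegaOne (hμ : ℵ₀ ≤ μ) (hM : #M = μ) (p : Col M) :
    p ∈ OmegaOneIs (Col M) (Order.succ μ).ord.ToType := by
  classical
  have hMinf : Infinite M := by
    rw [← aleph0_le_mk_iff, hM]
    exact hμ
  refine ⟨?_, fun i => ?_⟩
  · intro p' _ hp'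
    obtain ⟨q, hq, R, hR, hR'⟩ := mem_fex.1 hp' p' le_rfl
    obtain ⟨b, hb⟩ := bdd_values hμ hM
      (fun a i => a.1 ≤ q ∧ a.1 ∈ meets (R a.2 i)) (fun a i j h1 h2 =>
        IsFun.unique (down_IsFun R _ hR _ h1.1) h1.2 h2.2)
    obtain ⟨r, hr, n, hn⟩ := mem_fex.1 (hR' b) q le_rfl
    exact lt_irrefl _ (hb (r, n) b ⟨hr, hn⟩)
  · have hg : #{j : (Order.succ μ).ord.ToType // j < i} ≤ #M := by
      rw [hM]
      exact Order.lt_succ_iff.1 (mk_Iio_lt' i)
    obtain ⟨g⟩ := hg
    let R : {j : (Order.succ μ).ord.ToType // j < i} → ℕ → Set (Col M) := fun j n =>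
      {q | q.val n = some (g j) ∧ ∀ m < n, q.val m ≠ some (g j)}
    have hval : ∀ {q : Col M} {j n}, q ∈ meets (R j n) → ∃ r ≤ q, r.val n = some (g j) ∧
        ∀ m < n, r.val m ≠ some (g j) := by
      intro q j n hq
      obtain ⟨r, hr, s, hs, hrs⟩ := hq q le_rfl
      refine ⟨r, hr, val_eq_some_of_le hrs hs.1, fun m hm h => ?_⟩
      have h1 : n < s.len := lt_len_iff.2 ⟨_, hs.1⟩
      obtain ⟨a, ha⟩ := lt_len_iff.1 (hm.trans h1)
      have h2 := val_eq_some_of_le hrs ha
      rw [h] at h2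
      exact hs.2 m hm (by rw [ha, ← h2])
    refine mem_fex_of_mem R (down_fand (down_IsFun _) (down_IsInj _)) ⟨⟨fun j => ?_, ?_⟩, ?_⟩
    · refine mem_fex.2 fun q _ => ?_
      by_cases h : ∃ n, q.val n = some (g j)
      · exact ⟨q, le_rfl, Nat.find h, meets_of_mem ⟨Nat.find_spec h, fun m hm => Nat.find_min h hm⟩⟩
      · push Not at h
        have h1 : ∃ n, (q.add (g j)).val n = some (g j) := ⟨_, val_add _ _⟩
        exact ⟨q.add (g j), add_le _ _, Nat.find h1,
          meets_of_mem ⟨Nat.find_spec h1, fun m hm => Nat.find_min h1 hm⟩⟩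
    · intro j n n'
      refine mem_fimp.2 fun q _ hq => ⟨q, le_rfl, ?_⟩
      obtain ⟨r, hr, h1, h2⟩ := hval hq.1
      obtain ⟨r', hr', h3, h4⟩ := hval (down_meets _ _ hq.2 _ hr)
      have h5 := val_eq_some_of_le hr' h1
      rcases lt_trichotomy n n' with h | h | h
      · exact absurd h5 (h4 n h)
      · exact h
      · have h6 : n' < r.len := h.trans (lt_len_iff.2 ⟨_, h1⟩)
        obtain ⟨a, ha⟩ := lt_len_iff.1 h6
        have h7 := val_eq_some_of_le hr' ha
        rw [h3] at h7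
        exact absurd (ha.trans h7.symm) (h2 n' h)
    · intro j j' n
      refine mem_fimp.2 fun q _ hq => ⟨q, le_rfl, ?_⟩
      obtain ⟨r, hr, h1, -⟩ := hval hq.1
      obtain ⟨r', hr', h3, -⟩ := hval (down_meets _ _ hq.2 _ hr)
      have h5 := val_eq_some_of_le hr' h1
      rw [h3] at h5
      exact g.injective (Option.some.inj h5).symm

theorem enumReals (hμ : ℵ₀ ≤ μ) (hM : #M = μ) (h2 : (2 : Cardinal) ^ μ ≤ Order.succ μ) (p : Col M) :
    p ∈ EnumReals (Col M) (Order.succ μ).ord.ToType := by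
  classical
  have h1 : #(ℕ → Set (Col M)) ≤ #(Order.succ μ).ord.ToType := by
    have h3 : #(ℕ → Set (Col M)) ≤ #(Set (Col M × ℕ)) := by
      refine mk_le_of_injective (f := fun x => {a | a.1 ∈ x a.2}) fun x y h => ?_
      funext n
      ext a
      exact Set.ext_iff.1 h (a, n)
    refine h3.trans ?_
    rw [mk_set, mk_prod_nat hμ hM, mk_ord_toType]
    exact h2
  have hne : Nonempty (ℕ → Set (Col M)) := ⟨fun _ => ∅⟩
  obtain ⟨f⟩ := h1
  have h4 := Function.leftInverse_invFun f.injective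
  refine mem_fex.2 fun q _ => ⟨q, le_rfl, fun i => Function.invFun f i, fun x => ?_⟩
  refine mem_fex.2 fun r _ => ⟨r, le_rfl, f x, fun n => ?_⟩
  change r ∈ fand (fimp (meets (x n)) (meets (Function.invFun f (f x) n)))
    (fimp (meets (Function.invFun f (f x) n)) (meets (x n)))
  rw [h4]
  exact ⟨mem_fimp.2 fun s _ hs => ⟨s, le_rfl, hs⟩, mem_fimp.2 fun s _ hs => ⟨s, le_rfl, hs⟩⟩

/-- the name of a function of the ground model -/
def chk {A : Type} (y : ℕ → A) : ℕ → A → Set (Col M) := fun n a => {_q | y n = a}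

theorem meets_chk {A : Type} {y : ℕ → A} {n : ℕ} {a : A} {q : Col M} :
    q ∈ meets (chk y n a) ↔ y n = a := by
  constructor
  · intro h
    obtain ⟨_, _, _, h', _⟩ := h q le_rfl
    exact h'
  · intro h
    exact meets_of_mem (show q ∈ chk y n a from h)

theorem isFun_chk {A : Type} (y : ℕ → A) (q : Col M) : q ∈ IsFun (chk (M := M) y) := by
  refine ⟨fun n => mem_fex.2 fun r _ => ⟨r, le_rfl, y n, meets_chk.2 rfl⟩, fun n a a' =>
    mem_fimp.2 fun r _ hr => ⟨r, le_rfl, ?_⟩⟩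
  exact (meets_chk.1 hr.1).symm.trans (meets_chk.1 hr.2)

/-- the generic function, composed with `s` -/
def gen {A : Type} (s : M → A) : ℕ → A → Set (Col M) := fun n a =>
  {q | ∃ m, q.val n = some m ∧ s m = a}

theorem meets_gen {A : Type} {s : M → A} {n : ℕ} {a : A} {q : Col M} (h : q ∈ meets (gen s n a)) :
    ∃ r ≤ q, ∃ m, r.val n = some m ∧ s m = a := by
  obtain ⟨r, hr, t, ⟨m, h1, h2⟩, hrt⟩ := h q le_rfl
  exact ⟨r, hr, m, val_eq_some_of_le hrt h1, h2⟩

theorem isFun_gen [Nonempty M] {A : Type} (s : M → A) (q : Col M) : q ∈ IsFun (gen s) := by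
  refine ⟨fun n => mem_fex.2 fun r _ => ?_, fun n a a' => mem_fimp.2 fun r _ hr => ⟨r, le_rfl, ?_⟩⟩
  · obtain ⟨t, ht, m, hm⟩ := exists_val r n
    exact ⟨t, ht, s m, meets_of_mem ⟨m, hm, rfl⟩⟩
  · obtain ⟨t, ht, m, h1, h2⟩ := meets_gen hr.1
    obtain ⟨t', ht', m', h3, h4⟩ := meets_gen (down_meets _ _ hr.2 _ ht)
    have h5 := val_eq_some_of_le ht' h1
    rw [h3] at h5
    change a = a'
    rw [← h2, ← h4, Option.some.inj h5]

theorem forcedPhi (hμ : ℵ₀ ≤ μ) (hM : #M = μ) {A : Type} (hH : HH μ A) (p : Col M) :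
    p ∈ ForcedPhi (Col M) (Order.succ μ).ord.ToType A := by
  classical
  have hMinf : Infinite M := by
    rw [← aleph0_le_mk_iff, hM]
    exact hμ
  intro C
  refine mem_fimp.2 fun q0 _ hC => ?_
  let rep : (ℕ → A) → ℕ → A := fun y n => y (Nat.unpair n).1
  have hc : ∀ y : ℕ → A, ∃ b, ∀ q ≤ q0, ∀ i, q ∈ meets (C (chk (rep y)) i) → i < b := by
    intro y
    obtain ⟨b, hb⟩ := bdd_values hμ hM
      (fun a i => a.1 ≤ q0 ∧ a.1 ∈ meets (C (chk (rep y)) i)) (fun a i j h1 h2 =>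
        IsFun.unique (down_IsFun C _ hC _ h1.1) h1.2 h2.2)
    exact ⟨b, fun q hq i hi => hb (q, 0) i ⟨hq, hi⟩⟩
  choose c hc using hc
  obtain ⟨Y, hY, ⟨δ0, hδ0⟩, hran⟩ := hH c
  set N0 : Set A := ⋃ y ∈ Y, range y with hN0
  have hYne : Y.Nonempty := by
    rw [nonempty_iff_ne_empty]
    rintro rfl
    rw [mk_eq_zero] at hY
    exact absurd hY (not_lt.2 (zero_le))
  obtain ⟨y0, hy0⟩ := hYne
  have hmem : ∀ y ∈ Y, ∀ n, y n ∈ N0 := fun y hy n => by
    simp only [hN0, mem_iUnion]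
    exact ⟨y, hy, n, rfl⟩
  have hne : Nonempty N0 := ⟨⟨y0 0, hmem y0 hy0 0⟩⟩
  obtain ⟨g⟩ : #N0 ≤ #M := by
    rw [hM]
    exact hran
  let s : M → A := fun m => (Function.invFun g m : N0)
  have hs : ∀ a : N0, s (g a) = a := fun a => by
    change ((Function.invFun g (g a) : N0) : A) = a
    rw [Function.leftInverse_invFun g.injective]
  obtain ⟨q1, hq1, ε, hε⟩ := IsFun.total hC (gen s)
  refine ⟨q1, hq1, mem_fex_of_mem (max δ0 ε) (down_fnot _) ?_⟩
  intro q2 hq2 h2
  obtain ⟨q3, hq3, E, hE⟩ := mem_fex.1 h2 q2 le_rfl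
  have hG : ∀ y : Y, ∃ a : Col M × ℕ, ∀ k, a.1 ∈
      fand (fimp (meets (E a.2 k)) (EqualAt (gen s) (chk (rep y.1)) k))
        (fimp (EqualAt (gen s) (chk (rep y.1)) k) (meets (E a.2 k))) := by
    intro y
    have hC3 : q3 ∈ IsFun C := down_IsFun C _ hC _ (hq3.trans (hq2.trans hq1))
    obtain ⟨q4, hq4, i, hi⟩ := IsFun.total hC3 (chk (rep y.1))
    have hi' : i < c y := hc y.1 q4 (hq4.trans (hq3.trans (hq2.trans hq1))) i hi
    have h3 := hE (gen s) (chk (rep y.1)) ε i (le_max_right _ _)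
      ((hi'.le.trans (hδ0 y.1 y.2)).trans (le_max_left _ _))
    obtain ⟨q5, hq5, h5⟩ := mem_fimp.1 h3 q4 hq4 ⟨⟨isFun_gen s q4, isFun_chk _ q4⟩,
      down_meets _ _ hε _ (hq4.trans (hq3.trans hq2)), hi⟩
    obtain ⟨q6, hq6, n, h6⟩ := mem_fex.1 h5 q5 le_rfl
    exact ⟨(q6, n), h6⟩
  choose G hG using hG
  have hninj : ¬ Function.Injective G := by
    intro h
    have h1 := mk_le_of_injective h
    rw [mk_prod_nat hμ hM] at h1
    exact absurd hY (not_lt.2 h1)
  simp only [Function.Injective, not_forall] at hninj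
  obtain ⟨y, y', hyy, hne'⟩ := hninj
  have h1 := hG y
  have h2 := hG y'
  rw [← hyy] at h2
  generalize G y = rn at h1 h2
  obtain ⟨r, n⟩ := rn
  have hex : ∃ m, y.1 m ≠ y'.1 m := by
    by_contra hcon
    push Not at hcon
    exact hne' (Subtype.ext (funext hcon))
  obtain ⟨m, hm⟩ := hex
  let k := Nat.pair m r.len
  have hk : rep y.1 k = y.1 m := by simp [rep, k]
  have hk' : rep y'.1 k = y'.1 m := by simp [rep, k]
  obtain ⟨q5, hq5, hlen⟩ := exists_len r k (Nat.right_le_pair _ _)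
  let u : M := g ⟨y.1 m, hmem _ y.2 m⟩
  have hsu : s u = y.1 m := hs _
  have h6 : (q5.add u).val k = some u := by
    rw [← hlen]
    exact val_add _ _
  have h7 : q5.add u ∈ EqualAt (gen s) (chk (rep y.1)) k :=
    mem_fex_of_mem (y.1 m) (down_fand (down_meets _) (down_meets _))
      ⟨meets_of_mem ⟨u, h6, hsu⟩, meets_chk.2 hk⟩
  obtain ⟨q7, hq7, h8⟩ := mem_fimp.1 (h1 k).2 _ ((add_le q5 u).trans hq5) h7
  obtain ⟨q8, hq8, h9⟩ := mem_fimp.1 (h2 k).1 q7
    (hq7.trans ((add_le q5 u).trans hq5)) h8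
  obtain ⟨q9, hq9, a, ha1, ha2⟩ := mem_fex.1 h9 q8 le_rfl
  obtain ⟨q10, hq10, v, hv1, hv2⟩ := meets_gen ha1
  have h10 := val_eq_some_of_le (hq10.trans (hq9.trans (hq8.trans hq7))) h6
  rw [hv1] at h10
  have h11 : v = u := Option.some.inj h10
  have h12 : rep y'.1 k = a := meets_chk.1 ha2
  apply hm
  rw [← hsu, ← h11, hv2, ← h12, hk']

end Col

end Pool.Agent.W873.Tp
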