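import Mathlib

set_option autoImplicit false

/-!
# The transformation property

Definitions: `H(θ)`, the countable elementary submodels, names and automorphisms, the
transformation property, Cohen forcing and random forcing.
-/

namespace Pool.Agent.W873.Tp

open Cardinal Ordinal FirstOrder MeasureTheory

/-- `H(θ)`: the sets contained in a transitive set with fewer than `θ` elements -/
def Hset (θ : Cardinal.{0}) : Set ZFSet.{0} :=
  {x | ∃ t : ZFSet.{0}, t.IsTransitive ∧ x ⊆ t ∧ t.card < θ}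

/-- the binary relation symbols for `∈` and for the well-order -/
inductive Sym : ℕ → Type
  | mem : Sym 2
  | wo : Sym 2

/-- the first-order language of set theory with a symbol for a well-order -/
def LWo : FirstOrder.Language.{0, 0} := ⟨fun _ => Empty, Sym⟩

/-- the structure `(H(θ), ∈, r)` -/
@[reducible] def str (θ : Cardinal.{0}) (r : Hset θ → Hset θ → Prop) : LWo.Structure (Hset θ) where
  funMap := fun f => Empty.elim f
  RelMap := fun {_} R => match R with
    | Sym.mem => fun v => (v 0).1 ∈ (v 1).1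
    | Sym.wo => fun v => r (v 0) (v 1)

/-- `Sub(θ)`, for the well-order `r` of `H(θ)`: `M` is countable, `M ⊆ H(θ)` and
`(M, ∈, r)` is an elementary submodel of `(H(θ), ∈, r)`. -/
def InSub (θ : Cardinal.{0}) (r : Hset θ → Hset θ → Prop) (M : ZFSet.{0}) : Prop :=
  letI := str θ r
  {x : ZFSet.{0} | x ∈ M}.Countable ∧
    ∃ S : LWo.ElementarySubstructure (Hset θ), ∀ x : ZFSet.{0}, x ∈ M ↔ ∃ y ∈ S, y.1 = x

/-- A forcing notion: the set `car` of the conditions, the set `rel` of the pairs `(p, q)` with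
`p ≤ q`, and the greatest condition `one`. -/
structure Notion where
  car : ZFSet.{0}
  rel : ZFSet.{0}
  one : ZFSet.{0}

namespace Notion

variable (P : Notion)

/-- `p ≤ q` -/
def Le (p q : ZFSet.{0}) : Prop := ZFSet.pair p q ∈ P.rel

/-- the forcing notion as one set -/
def code : ZFSet.{0} := ZFSet.pair P.car (ZFSet.pair P.rel P.one)

/-- partial orders with a greatest element -/
structure IsOrder : Prop where
  field : ∀ p q, P.Le p q → p ∈ P.car ∧ q ∈ P.car
  refl : ∀ p ∈ P.car, P.Le p p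
  antisymm : ∀ p q, P.Le p q → P.Le q p → p = q
  trans : ∀ p q s, P.Le p q → P.Le q s → P.Le p s
  top_mem : P.one ∈ P.car
  le_top : ∀ p ∈ P.car, P.Le p P.one

/-- the automorphisms -/
structure IsAuto (h : ZFSet.{0} → ZFSet.{0}) : Prop where
  bij : Set.BijOn h {p | p ∈ P.car} {p | p ∈ P.car}
  le_iff : ∀ p ∈ P.car, ∀ q ∈ P.car, P.Le p q ↔ P.Le (h p) (h q)

/-- the canonical name of the natural number `n`: the set of the pairs `(m, 1)` with `m < n` -/
def check : ℕ → ZFSet.{0}
  | 0 => ∅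
  | n + 1 => insert (ZFSet.pair (check n) P.one) (check n)

/-- `a` is a nice name for a subset of `ω`: it consists of the pairs `(n, p)` with `p ∈ A n`, where
each `A n` is an antichain of conditions. -/
def IsNiceName (a : ZFSet.{0}) : Prop :=
  ∃ A : ℕ → Set ZFSet.{0}, (∀ n, ∀ p ∈ A n, p ∈ P.car) ∧
    (∀ n, ∀ p ∈ A n, ∀ q ∈ A n, p ≠ q → ¬ ∃ s ∈ P.car, P.Le s p ∧ P.Le s q) ∧
    ∀ z, z ∈ a ↔ ∃ n, ∃ p ∈ A n, z = ZFSet.pair (P.check n) p

end Notion

theorem rank_lt_of_pair {a b p : ZFSet.{0}} (h : ZFSet.pair b p ∈ a) : b.rank < a.rank := by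
  refine lt_trans ?_ (ZFSet.rank_lt_of_mem h)
  refine lt_trans (ZFSet.rank_lt_of_mem (ZFSet.mem_singleton.2 rfl : b ∈ ({b} : ZFSet))) ?_
  refine ZFSet.rank_lt_of_mem ?_
  rw [ZFSet.pair, ZFSet.mem_pair]
  exact Or.inl rfl

/-- the index set of the pairs in `a` -/
def PairsIn (a : ZFSet.{0}) : Type 1 := {z : ZFSet.{0} × ZFSet.{0} // ZFSet.pair z.1 z.2 ∈ a}

instance (a : ZFSet.{0}) : Small.{0} (PairsIn a) :=
  small_of_injective (β := a)
    (f := fun z : PairsIn a => ⟨ZFSet.pair z.1.1 z.1.2, z.2⟩) fun z w h => by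
    have h1 := ZFSet.pair_injective (congrArg Subtype.val h)
    exact Subtype.ext (Prod.ext h1.1 h1.2)

/-- the action of an automorphism `h` on names: `h(a)` is the set of the pairs `(h(b), h(p))` with
`(b, p) ∈ a` -/
noncomputable def act (h : ZFSet.{0} → ZFSet.{0}) (a : ZFSet.{0}) : ZFSet.{0} :=
  ZFSet.range fun z : PairsIn a => ZFSet.pair (act h z.1.1) (h z.1.2)
termination_by a.rank
decreasing_by exact rank_lt_of_pair z.2

/-- The transformation property of `P` for the regular cardinal `θ` and the well-order `r` of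
`H(θ)`, for nice names. -/
def TransAt (P : Notion) (θ : Cardinal.{0}) (r : Hset θ → Hset θ → Prop) : Prop :=
  ∀ (n : ℕ) (M a : Fin (n + 1) → ZFSet.{0}),
    (∀ i, InSub θ r (M i) ∧ P.code ∈ M i) →
    (∀ i j, i ≤ j → M i ∩ (ω₁ : Ordinal.{0}).toZFSet ⊆ M j ∩ (ω₁ : Ordinal.{0}).toZFSet) →
    (∀ i, P.IsNiceName (a i) ∧ a i ∈ M i) →
    ∃ h, P.IsAuto h ∧ (∀ i, act h (a i) ∈ M (Fin.last n)) ∧
      act h (a (Fin.last n)) = a (Fin.last n)

/-- The transformation property fails for all sufficiently large `θ`, for all well-orders of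
`H(θ)`, even for nice names. -/
def TransFails (P : Notion) : Prop :=
  ∃ θ₀ : Cardinal.{0}, ∀ θ ≥ θ₀, θ.IsRegular → ∀ r : Hset θ → Hset θ → Prop, IsWellOrder _ r →
    ¬ TransAt P θ r

/-- the Baire subsets of `2^I`: the smallest `σ`-algebra containing the clopen sets -/
def IsBaire {I : Type} (A : Set (I → Bool)) : Prop :=
  MeasurableSet[MeasurableSpace.generateFrom {A : Set (I → Bool) | IsClopen A}] A

/-- `P` is isomorphic to the set of the nonzero elements of the quotient algebra of the Baire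
subsets of `2^I` by the ideal `N`. Here `q A` is the condition which corresponds to the class
of `A`. -/
def IsQuotient (I : Type) (N : Set (I → Bool) → Prop) (P : Notion) : Prop :=
  ∃ q : Set (I → Bool) → ZFSet.{0},
    (∀ p, p ∈ P.car ↔ ∃ A, IsBaire A ∧ ¬ N A ∧ q A = p) ∧
    (∀ A A', IsBaire A → IsBaire A' → ¬ N A → ¬ N A' →
      (q A = q A' ↔ N (A \ A') ∧ N (A' \ A)) ∧ (P.Le (q A) (q A') ↔ N (A \ A'))) ∧
    (∀ p p', P.Le p p' → p ∈ P.car ∧ p' ∈ P.car) ∧ P.one = q Set.univ

/-- Cohen forcing `ℂ(I)` -/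
def IsCohen (I : Type) (P : Notion) : Prop := IsQuotient I IsMeagre P

/-- the measure of a fair coin -/
noncomputable def coin : Measure Bool :=
  (2 : ENNReal)⁻¹ • (Measure.dirac true + Measure.dirac false)

/-- random forcing `𝔹(I)` -/
def IsRandom (I : Type) (P : Notion) : Prop :=
  IsQuotient I (fun A => Measure.infinitePi (fun _ : I => coin) A = 0) P

end Pool.Agent.W873.Tp
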