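import Mathlib
import Pool.Agent.W873.Tp.Trans

set_option autoImplicit false

/-!
# Countable elementary submodels closed under given functions
-/

namespace Pool.Agent.W873.Tp

open Cardinal Ordinal FirstOrder FirstOrder.Language

/-- binary function symbols -/
inductive Fn2 : ℕ → Type
  | f (j : ℕ) : Fn2 2

/-- the language with countably many binary function symbols -/
def LFn : FirstOrder.Language.{0, 0} := ⟨Fn2, fun _ => Empty⟩

instance (n : ℕ) : Countable (Sym n) :=
  Function.Injective.countable (f := fun s : Sym n => (match s with | .mem => 0 | .wo => 1 : ℕ))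
    fun s t h => by cases s <;> cases t <;> simp_all

instance (n : ℕ) : Countable (Fn2 n) :=
  Function.Injective.countable (f := fun s : Fn2 n => (match s with | .f j => j : ℕ))
    fun s t h => by cases s; cases t; simp_all

theorem countable_lang : (LWo.sum LFn).card ≤ ℵ₀ := by
  have h1 : ∀ n, Countable ((LWo.sum LFn).Functions n) := fun n =>
    (inferInstance : Countable (Empty ⊕ Fn2 n))
  have h2 : ∀ n, Countable ((LWo.sum LFn).Relations n) := fun n =>
    (inferInstance : Countable (Sym n ⊕ Empty))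
  unfold Language.card Language.Symbols
  rw [mk_le_aleph0_iff]
  infer_instance

theorem exists_sub {θ : Cardinal.{0}} (r : Hset θ → Hset θ → Prop)
    (F : ℕ → Hset θ → Hset θ → Hset θ) (s : Set (Hset θ)) (hs : s.Countable)
    (hinf : ℵ₀ ≤ #(Hset θ)) :
    ∃ M : ZFSet.{0}, InSub θ r M ∧ (∀ x ∈ s, x.1 ∈ M) ∧
      ∀ j, ∀ a b : Hset θ, a.1 ∈ M → b.1 ∈ M → (F j a b).1 ∈ M := by
  let i1 : LWo.Structure (Hset θ) := str θ r
  let i2 : LFn.Structure (Hset θ) :=
    { funMap := fun {_} f => match f with
        | Fn2.f j => fun v => F j (v 0) (v 1)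
      RelMap := fun R => Empty.elim R }
  obtain ⟨S, hsS, hcard⟩ := exists_elementarySubstructure_card_eq (LWo.sum LFn) s
    (ℵ₀ : Cardinal.{0}) le_rfl
    (by simpa using hs.le_aleph0) (by simpa using countable_lang) (by simpa using hinf)
  have hScount : Countable S := by
    rw [← mk_le_aleph0_iff]
    simpa using hcard.le
  let S0 : LWo.Substructure (Hset θ) := { carrier := S, fun_mem := fun f => Empty.elim f }
  have hel : S0.IsElementary := by
    intro n φ x
    let i3 : LWo.Structure S := (inferInstance : LWo.Structure S0)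
    have h1 := S.isElementary' ((LHom.sumInl : LWo →ᴸ LWo.sum LFn).onFormula φ) x
    rw [LHom.realize_onFormula] at h1
    have hexp : LHom.IsExpansionOn (LHom.sumInl : LWo →ᴸ LWo.sum LFn) S :=
      { map_onFunction := fun f => Empty.elim f
        map_onRelation := fun R x => rfl }
    have h2 : ((LHom.sumInl : LWo →ᴸ LWo.sum LFn).onFormula φ).Realize x ↔ φ.Realize x :=
      @LHom.realize_onFormula LWo (LWo.sum LFn) S i3 (Fin n) _ LHom.sumInl hexp φ x
    exact h1.trans h2
  refine ⟨ZFSet.range fun x : S => x.1.1, ⟨?_, ⟨S0, hel⟩, ?_⟩, ?_, ?_⟩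
  · refine Set.Countable.mono ?_ (Set.countable_range fun x : S => x.1.1)
    intro z hz
    rw [Set.mem_ofPred_eq, ZFSet.mem_range] at hz
    exact hz
  · intro z
    rw [ZFSet.mem_range]
    constructor
    · rintro ⟨y, rfl⟩
      exact ⟨y.1, y.2, rfl⟩
    · rintro ⟨y, hy, rfl⟩
      exact ⟨⟨y, hy⟩, rfl⟩
  · intro x hx
    rw [ZFSet.mem_range]
    exact ⟨⟨x, hsS hx⟩, rfl⟩
  · intro j a b ha hb
    rw [ZFSet.mem_range] at ha hb ⊢
    obtain ⟨a', ha⟩ := ha
    obtain ⟨b', hb⟩ := hb
    have ha' : a'.1 = a := Subtype.ext ha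
    have hb' : b'.1 = b := Subtype.ext hb
    have h1 := S.toSubstructure.fun_mem (n := 2) (Sum.inr (Fn2.f j)) ![a, b] (by
      intro i
      fin_cases i
      · exact ha' ▸ a'.2
      · exact hb' ▸ b'.2)
    exact ⟨⟨F j a b, h1⟩, rfl⟩

end Pool.Agent.W873.Tp
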