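import Mathlib
import Pool.Agent.W873.Tp.Sub
import Pool.Agent.W873.Tp.Defs

set_option autoImplicit false

/-!
# The failure of the transformation property
-/

namespace Pool.Agent.W873.Tp

open Cardinal Ordinal

theorem mem_act {h : ZFSet.{0} → ZFSet.{0}} {a z : ZFSet.{0}} :
    z ∈ act h a ↔ ∃ b p, ZFSet.pair b p ∈ a ∧ z = ZFSet.pair (act h b) (h p) := by
  rw [act, ZFSet.mem_range]
  constructor
  · rintro ⟨⟨⟨b, p⟩, hz⟩, rfl⟩
    exact ⟨b, p, hz, rfl⟩
  · rintro ⟨b, p, hz, rfl⟩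
    exact ⟨⟨⟨b, p⟩, hz⟩, rfl⟩

namespace Notion

variable {P : Notion}

theorem mem_check {n : ℕ} {z : ZFSet.{0}} :
    z ∈ P.check n ↔ ∃ m < n, z = ZFSet.pair (P.check m) P.one := by
  induction n with
  | zero =>
    simp only [check]
    constructor
    · intro h
      exact absurd h (ZFSet.notMem_empty z)
    · rintro ⟨m, hm, _⟩
      exact absurd hm (Nat.not_lt_zero m)
  | succ n ih =>
    rw [check, ZFSet.mem_insert_iff, ih]
    constructor
    · rintro (rfl | ⟨m, hm, rfl⟩)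
      · exact ⟨n, Nat.lt_succ_self n, rfl⟩
      · exact ⟨m, hm.trans (Nat.lt_succ_self n), rfl⟩
    · rintro ⟨m, hm, rfl⟩
      rcases Nat.lt_succ_iff_lt_or_eq.1 hm with h | rfl
      · exact Or.inr ⟨m, h, rfl⟩
      · exact Or.inl rfl

theorem check_injective : Function.Injective P.check := by
  have key : ∀ m n : ℕ, m < n → P.check m ≠ P.check n := by
    intro m n hmn h
    have h1 : ZFSet.pair (P.check m) P.one ∈ P.check n := mem_check.2 ⟨m, hmn, rfl⟩
    rw [← h] at h1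
    exact lt_irrefl _ (rank_lt_of_pair h1)
  intro m n h
  rcases lt_trichotomy m n with h1 | h1 | h1
  · exact absurd h (key m n h1)
  · exact h1
  · exact absurd h.symm (key n m h1)

theorem act_check {h : ZFSet.{0} → ZFSet.{0}} (h1 : h P.one = P.one) (n : ℕ) :
    act h (P.check n) = P.check n := by
  induction n using Nat.strong_induction_on with
  | _ n ih =>
    ext z
    rw [mem_act, mem_check]
    constructor
    · rintro ⟨b, p, hb, rfl⟩
      obtain ⟨m, hm, h2⟩ := mem_check.1 hb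
      obtain ⟨rfl, rfl⟩ := ZFSet.pair_injective h2
      exact ⟨m, hm, by rw [ih m hm, h1]⟩
    · rintro ⟨m, hm, rfl⟩
      exact ⟨P.check m, P.one, mem_check.2 ⟨m, hm, rfl⟩, by rw [ih m hm, h1]⟩

theorem IsAuto.one {h : ZFSet.{0} → ZFSet.{0}} (hP : P.IsOrder) (hh : P.IsAuto h) :
    h P.one = P.one := by
  have h1 : h P.one ∈ P.car := hh.bij.mapsTo hP.top_mem
  refine hP.antisymm _ _ (hP.le_top _ h1) ?_
  obtain ⟨q, hq, h2⟩ := hh.bij.surjOn hP.top_mem
  have h3 := (hh.le_iff q hq P.one hP.top_mem).1 (hP.le_top q hq)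
  rw [h2] at h3
  exact h3

end Notion

/-! ### the countable ordinals as sets -/

/-- the countable ordinals as sets -/
noncomputable def wz (w : W1) : ZFSet.{0} := (Ordinal.typein (α := W1) (· < ·) w).toZFSet

theorem wz_injective : Function.Injective wz := fun _ _ h =>
  Ordinal.typein_injective _ (Ordinal.toZFSet_injective h)

theorem mem_omega1 {z : ZFSet.{0}} : z ∈ (ω₁ : Ordinal.{0}).toZFSet ↔ ∃ w : W1, wz w = z := by
  have hty : Ordinal.type ((· < ·) : W1 → W1 → Prop) = ω₁ := by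
    rw [Ordinal.type_toType, ord_aleph]
  rw [Ordinal.mem_toZFSet_iff]
  constructor
  · rintro ⟨a, ha, rfl⟩
    have ha' : a < Ordinal.type ((· < ·) : W1 → W1 → Prop) := by rwa [hty]
    refine ⟨Ordinal.enum (· < ·) ⟨a, ha'⟩, ?_⟩
    unfold wz
    exact congrArg _ (Ordinal.typein_enum (· < ·) ha')
  · rintro ⟨w, rfl⟩
    exact ⟨_, hty ▸ Ordinal.typein_lt_type _ w, rfl⟩

theorem W1_bdd (s : Set W1) (hs : s.Countable) : ∃ δ : W1, ∀ x ∈ s, x < δ := by
  by_contra hcon
  push Not at hcon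
  have h1 : IsCofinal s := fun β => by
    obtain ⟨x, hx, h⟩ := hcon β
    exact ⟨x, hx, h⟩
  have h2 := Order.cof_le h1
  rw [Ordinal.cof_toType, isRegular_aleph_one.cof_ord] at h2
  exact absurd (h2.trans (mk_le_aleph0_iff.2 hs.to_subtype)) (not_le.2 aleph0_lt_aleph_one)

theorem countable_Iio_W1 (w : W1) : (Set.Iio w).Countable := by
  have h := mk_Iio_lt w (by simp)
  rw [mk_ord_toType] at h
  exact mk_le_aleph0_iff.1 (Order.lt_succ_iff.1 (h.trans_eq succ_aleph0.symm))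

theorem exists_enum : ∃ e : W1 → ℕ → W1, ∀ w, ∀ v < w, ∃ n, e w n = v := by
  have : ∀ w : W1, ∃ f : ℕ → W1, ∀ v < w, ∃ n, f n = v := by
    intro w
    by_cases h : (Set.Iio w).Nonempty
    · obtain ⟨f, hf⟩ := (countable_Iio_W1 w).exists_eq_range h
      refine ⟨f, fun v hv => ?_⟩
      have : v ∈ Set.range f := hf ▸ hv
      exact this
    · exact ⟨fun _ => w, fun v hv => absurd ⟨v, hv⟩ h⟩
  choose e he using this
  exact ⟨e, he⟩

theorem transFails_of {P : Notion} (hP : P.IsOrder) {I : Type} (B : I → ZFSet.{0})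
    (hB : Function.Injective B) (hBc : ∀ i, B i ∈ P.car)
    (hCH : (2 : Cardinal.{0}) ^ ℵ₀ = ℵ₁) (hPhi : Phi I) : TransFails P := by
  classical
  obtain ⟨e, he⟩ := exists_enum
  obtain ⟨rl, hrl⟩ : ∃ rl : W1 → Set ℕ, Function.Surjective rl := by
    have h1 : #(Set ℕ) = #W1 := by
      rw [mk_set, mk_nat, hCH, mk_ord_toType]
    obtain ⟨f⟩ := Cardinal.eq.1 h1
    exact ⟨f.symm, f.symm.surjective⟩
  let nm : (ℕ → I) → ZFSet.{0} := fun x =>
    ZFSet.range fun n : ℕ => ZFSet.pair (P.check n) (B (x n))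
  have mem_nm : ∀ x z, z ∈ nm x ↔ ∃ n, ZFSet.pair (P.check n) (B (x n)) = z := fun x z =>
    ZFSet.mem_range
  let o : Ordinal.{0} := Order.succ (max (ZFSet.range nm).rank
    (max P.code.rank (ω₁ : Ordinal.{0}).toZFSet.rank))
  have ho1 : ∀ x, (nm x).rank < o := fun x =>
    (ZFSet.rank_lt_of_mem (ZFSet.mem_range_self x)).trans
      (Order.lt_succ_of_le (le_max_left _ _))
  have ho2 : P.code.rank < o :=
    Order.lt_succ_of_le ((le_max_left _ _).trans (le_max_right _ _))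
  have ho3 : ∀ w, (wz w).rank < o := fun w =>
    (ZFSet.rank_lt_of_mem (mem_omega1.2 ⟨w, rfl⟩)).trans
      (Order.lt_succ_of_le ((le_max_right _ _).trans (le_max_right _ _)))
  refine ⟨Order.succ (ZFSet.card (ZFSet.vonNeumann o)), fun θ hθ _ r _ hT => ?_⟩
  have hmem : ∀ z : ZFSet.{0}, z.rank < o → z ∈ Hset θ := by
    intro z hz
    refine ⟨ZFSet.vonNeumann o, ZFSet.isTransitive_vonNeumann o,
      ZFSet.subset_vonNeumann.2 hz.le, ?_⟩
    exact (Order.lt_succ _).trans_le hθ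
  let wH : W1 → Hset θ := fun w => ⟨wz w, hmem _ (ho3 w)⟩
  have hinf : ℵ₀ ≤ #(Hset θ) := by
    have h1 : Infinite W1 := by
      rw [← aleph0_le_mk_iff, mk_ord_toType]
      exact aleph0_lt_aleph_one.le
    have h2 : Infinite (Hset θ) := Infinite.of_injective wH fun a b h =>
      wz_injective (congrArg Subtype.val h)
    exact aleph0_le_mk _
  choose idx hidx using fun a b : ZFSet.{0} =>
    hrl {k | ∃ p, ZFSet.pair (P.check k) p ∈ a ∧ ZFSet.pair (P.check k) p ∈ b}
  let F : ℕ → Hset θ → Hset θ → Hset θ := fun n a b => match n with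
    | 0 => wH (idx a.1 b.1)
    | n + 1 => if h : ∃ w, wz w = a.1 then wH (e h.choose n) else a
  have hM := fun x : ℕ → I => exists_sub r F
    {⟨P.code, hmem _ ho2⟩, ⟨nm x, hmem _ (ho1 x)⟩} (Set.toFinite _).countable hinf
  choose M hM1 hM2 hM3 using hM
  have hMc : ∀ x, P.code ∈ M x := fun x => hM2 x ⟨P.code, hmem _ ho2⟩ (Set.mem_insert _ _)
  have hMn : ∀ x, nm x ∈ M x := fun x => hM2 x ⟨nm x, hmem _ (ho1 x)⟩
    (Set.mem_insert_of_mem _ rfl)
  have hMH : ∀ x, ∀ z ∈ M x, z ∈ Hset θ := by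
    intro x z hz
    obtain ⟨_, S, hS⟩ := hM1 x
    obtain ⟨y, _, rfl⟩ := (hS z).1 hz
    exact y.2
  -- the ordinals of the models
  have hdown : ∀ x w, wz w ∈ M x → ∀ v < w, wz v ∈ M x := by
    intro x w hw v hv
    obtain ⟨n, hn⟩ := he w v hv
    have h1 := hM3 x (n + 1) (wH w) (wH w) hw hw
    have hex : ∃ w', wz w' = (wH w).1 := ⟨w, rfl⟩
    have h2 : hex.choose = w := wz_injective hex.choose_spec
    have h3 : F (n + 1) (wH w) (wH w) = wH (e hex.choose n) := dif_pos hex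
    rw [h3, h2, hn] at h1
    exact h1
  have hc : ∀ x, ∃ δ : W1, ∀ w, wz w ∈ M x ↔ w < δ := by
    intro x
    have h1 : {w : W1 | wz w ∈ M x}.Countable :=
      (hM1 x).1.preimage_of_injOn wz_injective.injOn
    obtain ⟨δ0, hδ0⟩ := W1_bdd _ h1
    have hne : {w : W1 | wz w ∉ M x}.Nonempty := ⟨δ0, fun h => lt_irrefl _ (hδ0 δ0 h)⟩
    obtain ⟨δ, h2, h3⟩ := WellFounded.has_min (wellFounded_lt (α := W1)) _ hne
    refine ⟨δ, fun w => ⟨fun hw => ?_, fun hw => ?_⟩⟩
    · by_contra hcon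
      rcases (not_lt.1 hcon).lt_or_eq with h4 | h4
      · exact h2 (hdown x w hw δ h4)
      · exact h2 (h4 ▸ hw)
    · by_contra hcon
      exact h3 w hcon hw
  choose c hc using hc
  have key : ∀ x y, c x ≤ c y → ∃ ξ < c y, rl ξ = {k | x k = y k} := by
    intro x y hxy
    obtain ⟨h, hh, h1, h2⟩ := hT 1 ![M x, M y] ![nm x, nm y] (by
      intro i
      fin_cases i
      · exact ⟨hM1 x, hMc x⟩
      · exact ⟨hM1 y, hMc y⟩) (by
      have hxy' : M x ∩ (ω₁ : Ordinal.{0}).toZFSet ⊆ M y ∩ (ω₁ : Ordinal.{0}).toZFSet := by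
        intro z hz
        rw [ZFSet.mem_inter] at hz ⊢
        obtain ⟨w, rfl⟩ := mem_omega1.1 hz.2
        exact ⟨(hc y w).2 (((hc x w).1 hz.1).trans_le hxy), hz.2⟩
      intro i j hij
      fin_cases i <;> fin_cases j
      · exact fun z hz => hz
      · exact hxy'
      · exact absurd hij (by decide)
      · exact fun z hz => hz) (by
      have hnice : ∀ x, P.IsNiceName (nm x) := by
        intro x
        refine ⟨fun n => {B (x n)}, ?_, ?_, ?_⟩
        · rintro n _ rfl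
          exact hBc _
        · rintro n _ rfl _ rfl h
          exact absurd rfl h
        · intro z
          rw [mem_nm]
          constructor
          · rintro ⟨n, rfl⟩
            exact ⟨n, _, rfl, rfl⟩
          · rintro ⟨n, _, rfl, rfl⟩
            exact ⟨n, rfl⟩
      intro i
      fin_cases i
      · exact ⟨hnice x, hMn x⟩
      · exact ⟨hnice y, hMn y⟩)
    have h3 : act h (nm x) ∈ M y := h1 0
    have h4 : act h (nm y) = nm y := h2
    have hone := Notion.IsAuto.one hP hh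
    have hact : ∀ x z, z ∈ act h (nm x) ↔ ∃ n, z = ZFSet.pair (P.check n) (h (B (x n))) := by
      intro x z
      rw [mem_act]
      constructor
      · rintro ⟨b, p, hbp, rfl⟩
        obtain ⟨n, hn⟩ := (mem_nm _ _).1 hbp
        obtain ⟨rfl, rfl⟩ := ZFSet.pair_injective hn
        exact ⟨n, by rw [Notion.act_check hone]⟩
      · rintro ⟨n, rfl⟩
        exact ⟨_, _, (mem_nm _ _).2 ⟨n, rfl⟩, by rw [Notion.act_check hone]⟩
    have h5 := hM3 y 0 ⟨_, hMH y _ h3⟩ ⟨nm y, hmem _ (ho1 y)⟩ h3 (hMn y)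
    have h6 : wz (idx (act h (nm x)) (nm y)) ∈ M y := h5
    refine ⟨idx (act h (nm x)) (nm y), (hc y _).1 h6, ?_⟩
    rw [hidx]
    ext k
    constructor
    · rintro ⟨p, hp1, hp2⟩
      rw [← h4] at hp2
      obtain ⟨n, hn⟩ := (hact x _).1 hp1
      obtain ⟨m, hm⟩ := (hact y _).1 hp2
      have e1 := ZFSet.pair_injective hn
      have e2 := ZFSet.pair_injective hm
      have e3 := P.check_injective e1.1
      have e4 := P.check_injective e2.1
      subst e3 e4
      have e5 : h (B (x k)) = h (B (y k)) := e1.2.symm.trans e2.2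
      exact hB (hh.bij.injOn (hBc _) (hBc _) e5)
    · intro hk
      have hk' : x k = y k := hk
      refine ⟨h (B (x k)), (hact x _).2 ⟨k, rfl⟩, ?_⟩
      rw [← h4]
      exact (hact y _).2 ⟨k, by rw [hk']⟩
  obtain ⟨δ, hδ⟩ := hPhi c
  refine hδ (((countable_Iio_W1 δ).image rl).mono ?_)
  rintro _ ⟨x, y, hx, hy, rfl⟩
  rcases le_total (c x) (c y) with h | h
  · obtain ⟨ξ, h1, h2⟩ := key x y h
    exact ⟨ξ, h1.trans_le hy, h2⟩
  · obtain ⟨ξ, h1, h2⟩ := key y x h
    refine ⟨ξ, h1.trans_le hx, h2.trans ?_⟩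
    ext k
    exact eq_comm

end Pool.Agent.W873.Tp
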