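import Mathlib
import Pool.Agent.W873.Tp.Fail

set_option autoImplicit false

/-!
# Cohen forcing and random forcing
-/

namespace Pool.Agent.W873.Tp

open Cardinal Ordinal MeasureTheory

variable {I : Type} {N : Set (I → Bool) → Prop}

/-- proper ideals -/
structure IsIdl (N : Set (I → Bool) → Prop) : Prop where
  empty : N ∅
  mono : ∀ A A', N A' → A ⊆ A' → N A
  union : ∀ A A', N A → N A' → N (A ∪ A')
  proper : ¬ N Set.univ

theorem isBaire_univ : IsBaire (Set.univ : Set (I → Bool)) := by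
  unfold IsBaire
  exact MeasurableSet.univ

/-- a basic clopen set -/
def bs (i : I) : Set (I → Bool) := {f | f i = true}

theorem isClopen_bs (i : I) : IsClopen (bs i) := by
  have h : Continuous fun f : I → Bool => f i := continuous_apply i
  exact (isClopen_discrete {true}).preimage h

theorem isBaire_bs (i : I) : IsBaire (bs i) :=
  MeasurableSpace.measurableSet_generateFrom (isClopen_bs i)

theorem IsIdl.trans (hN : IsIdl N) {A B C : Set (I → Bool)} (h1 : N (A \ B)) (h2 : N (B \ C)) :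
    N (A \ C) := by
  refine hN.mono _ _ (hN.union _ _ h1 h2) ?_
  rintro f ⟨hf1, hf2⟩
  by_cases h : f ∈ B
  · exact Or.inr ⟨h, hf2⟩
  · exact Or.inl ⟨hf1, h⟩

theorem IsIdl.self (hN : IsIdl N) (A : Set (I → Bool)) : N (A \ A) := by
  rw [Set.sdiff_self]
  exact hN.empty

theorem transFails_quotient (hN : IsIdl N) (hbs : ∀ i, ¬ N (bs i))
    (hbs2 : ∀ i j, i ≠ j → ¬ N (bs i \ bs j)) {P : Notion} (hP : IsQuotient I N P)
    (hCH : (2 : Cardinal.{0}) ^ ℵ₀ = ℵ₁) (hPhi : Phi I) : TransFails P := by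
  obtain ⟨q, h1, h2, h3, h4⟩ := hP
  have hord : P.IsOrder := by
    refine ⟨h3, ?_, ?_, ?_, ?_, ?_⟩
    · intro p hp
      obtain ⟨A, hA, hA', rfl⟩ := (h1 p).1 hp
      exact (h2 A A hA hA hA' hA').2.2 (hN.self A)
    · intro p p' hpp hpp'
      obtain ⟨A, hA, hA', rfl⟩ := (h1 p).1 (h3 _ _ hpp).1
      obtain ⟨B, hB, hB', rfl⟩ := (h1 p').1 (h3 _ _ hpp).2
      exact (h2 A B hA hB hA' hB').1.2 ⟨(h2 A B hA hB hA' hB').2.1 hpp,
        (h2 B A hB hA hB' hA').2.1 hpp'⟩
    · intro p p' p'' hpp hpp'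
      obtain ⟨A, hA, hA', rfl⟩ := (h1 p).1 (h3 _ _ hpp).1
      obtain ⟨B, hB, hB', rfl⟩ := (h1 p').1 (h3 _ _ hpp).2
      obtain ⟨C, hC, hC', rfl⟩ := (h1 p'').1 (h3 _ _ hpp').2
      exact (h2 A C hA hC hA' hC').2.2 (hN.trans ((h2 A B hA hB hA' hB').2.1 hpp)
        ((h2 B C hB hC hB' hC').2.1 hpp'))
    · rw [h4]
      exact (h1 _).2 ⟨_, isBaire_univ, hN.proper, rfl⟩
    · intro p hp
      obtain ⟨A, hA, hA', rfl⟩ := (h1 p).1 hp
      rw [h4]
      refine (h2 A _ hA isBaire_univ hA' hN.proper).2.2 ?_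
      rw [Set.sdiff_univ]
      exact hN.empty
  refine transFails_of hord (fun i => q (bs i)) (fun i j hij => ?_) (fun i => ?_) hCH hPhi
  · by_contra hne
    exact hbs2 i j hne ((h2 _ _ (isBaire_bs i) (isBaire_bs j) (hbs i) (hbs j)).1.1 hij).1
  · exact (h1 _).2 ⟨_, isBaire_bs i, hbs i, rfl⟩

/-- a quotient exists -/
theorem exists_quotient (hN : IsIdl N) : ∃ P, IsQuotient I N P := by
  classical
  let cd : Set (Set (I → Bool)) → ZFSet.{0} := fun x =>
    (Ordinal.typein (α := Set (Set (I → Bool))) WellOrderingRel x).toZFSet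
  have hcd : Function.Injective cd := fun _ _ h =>
    Ordinal.typein_injective _ (Ordinal.toZFSet_injective h)
  let q : Set (I → Bool) → ZFSet.{0} := fun A => cd {B | N (A \ B) ∧ N (B \ A)}
  have hq : ∀ A B, q A = q B ↔ N (A \ B) ∧ N (B \ A) := by
    intro A B
    constructor
    · intro h
      have h1 := hcd h
      have h2 : B ∈ {C | N (B \ C) ∧ N (C \ B)} := ⟨hN.self B, hN.self B⟩
      rw [← h1] at h2
      exact h2
    · rintro ⟨h1, h2⟩
      refine congrArg cd ?_
      ext C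
      constructor
      · rintro ⟨h3, h4⟩
        exact ⟨hN.trans h2 h3, hN.trans h4 h1⟩
      · rintro ⟨h3, h4⟩
        exact ⟨hN.trans h1 h3, hN.trans h4 h2⟩
  let D : Type := {A : Set (I → Bool) // IsBaire A ∧ ¬ N A}
  refine ⟨⟨ZFSet.range fun A : D => q A.1,
    ZFSet.range fun A : {A : D × D // N (A.1.1 \ A.2.1)} => ZFSet.pair (q A.1.1.1) (q A.1.2.1),
    q Set.univ⟩, q, ?_, ?_, ?_, rfl⟩
  · intro p
    change p ∈ ZFSet.range _ ↔ _
    rw [ZFSet.mem_range]
    constructor
    · rintro ⟨A, rfl⟩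
      exact ⟨A.1, A.2.1, A.2.2, rfl⟩
    · rintro ⟨A, h1, h2, rfl⟩
      exact ⟨⟨A, h1, h2⟩, rfl⟩
  · intro A B hA hB hA' hB'
    refine ⟨hq A B, ?_⟩
    change ZFSet.pair _ _ ∈ ZFSet.range _ ↔ _
    rw [ZFSet.mem_range]
    constructor
    · rintro ⟨⟨⟨C, D⟩, h⟩, h1⟩
      obtain ⟨h2, h3⟩ := ZFSet.pair_injective h1
      exact hN.trans ((hq _ _).1 h2).2 (hN.trans h ((hq _ _).1 h3).1)
    · intro h
      exact ⟨⟨⟨⟨A, hA, hA'⟩, ⟨B, hB, hB'⟩⟩, h⟩, rfl⟩
  · intro p p' h
    change ZFSet.pair _ _ ∈ ZFSet.range _ at h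
    rw [ZFSet.mem_range] at h
    obtain ⟨⟨⟨C, D⟩, _⟩, h1⟩ := h
    obtain ⟨h2, h3⟩ := ZFSet.pair_injective h1
    constructor
    · change p ∈ ZFSet.range _
      rw [ZFSet.mem_range]
      exact ⟨C, h2⟩
    · change p' ∈ ZFSet.range _
      rw [ZFSet.mem_range]
      exact ⟨D, h3⟩

/-! ### meager sets -/

theorem idl_meagre : IsIdl (I := I) IsMeagre where
  empty := IsMeagre.empty
  mono _ _ h h' := h.mono h'
  union _ _ h h' := h.union h'
  proper := not_isMeagre_of_isOpen isOpen_univ Set.univ_nonempty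

theorem bs_meagre (i : I) : ¬ IsMeagre (bs i) :=
  not_isMeagre_of_isOpen (isClopen_bs i).isOpen ⟨fun _ => true, rfl⟩

theorem bs_diff_meagre (i j : I) (h : i ≠ j) : ¬ IsMeagre (bs i \ bs j) := by
  classical
  refine not_isMeagre_of_isOpen ((isClopen_bs i).diff (isClopen_bs j)).isOpen
    ⟨fun k => if k = i then true else false, ?_, ?_⟩
  · exact if_pos rfl
  · intro h1
    have h2 : (if j = i then true else false) = true := h1
    rw [if_neg h.symm] at h2
    exact Bool.false_ne_true h2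

/-! ### null sets -/

instance : IsProbabilityMeasure coin := ⟨by
  simp only [coin, Measure.smul_apply, Measure.add_apply, measure_univ]
  norm_num
  exact ENNReal.inv_mul_cancel two_ne_zero ENNReal.ofNat_ne_top⟩

theorem coin_singleton (b : Bool) : coin {b} ≠ 0 := by
  simp only [coin, Measure.smul_apply, Measure.add_apply]
  cases b <;> simp

theorem idl_null : IsIdl (I := I) fun A => Measure.infinitePi (fun _ : I => coin) A = 0 where
  empty := measure_empty
  mono _ _ h h' := measure_mono_null h' h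
  union _ _ h h' := measure_union_null h h'
  proper := by simp

theorem cyl_null (s : Finset I) (f : I → Bool) :
    Measure.infinitePi (fun _ : I => coin) {g | ∀ i ∈ s, g i = f i} ≠ 0 := by
  have h : {g : I → Bool | ∀ i ∈ s, g i = f i} = Set.pi s fun i => {f i} := by
    ext g
    simp
  rw [h, Measure.infinitePi_pi _ (fun i _ => MeasurableSet.singleton _)]
  rw [Finset.prod_ne_zero_iff]
  exact fun i _ => coin_singleton _

theorem bs_null (i : I) : ¬ Measure.infinitePi (fun _ : I => coin) (bs i) = 0 := by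
  have := cyl_null {i} fun _ => true
  simp only [Finset.mem_singleton, forall_eq] at this
  exact this

theorem bs_diff_null (i j : I) (h : i ≠ j) :
    ¬ Measure.infinitePi (fun _ : I => coin) (bs i \ bs j) = 0 := by
  classical
  intro h0
  refine cyl_null {i, j} (fun k => if k = i then true else false) (measure_mono_null ?_ h0)
  intro g hg
  have h1 := hg i (by simp)
  have h2 := hg j (by simp)
  simp only [if_true] at h1
  rw [if_neg h.symm] at h2
  refine ⟨h1, fun h3 => ?_⟩
  have h4 : g j = true := h3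
  rw [h2] at h4
  exact Bool.false_ne_true h4

end Pool.Agent.W873.Tp
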